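import Pool.Agent.E8helper30.RG.Stm

/-!
# Project RG: the construction S_CONS
-/

set_option autoImplicit false

namespace Pool.Agent.E8helper73.RG

open Pool.Agent.E8helper30.RG
open scoped Classical

/-- a coloured graph from a jointly injective family of pairs of edges -/
theorem abs' {n : ℕ} {κ : Type} (code : κ → ℕ) (hc : Function.Injective code) (T : Finset κ)
    (E : κ × Bool → Sym2 (Fin n))
    (hinj : ∀ p q : κ × Bool, p.1 ∈ T → q.1 ∈ T → E p = E q → p = q)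
    (hd : ∀ p : κ × Bool, p.1 ∈ T → ¬ (E p).IsDiag) :
    ∃ (G : SimpleGraph (Fin n)) (c : Sym2 (Fin n) → ℕ),
      (∀ e, e ∈ G.edgeSet ↔ ∃ p : κ × Bool, p.1 ∈ T ∧ E p = e) ∧
      (∀ p : κ × Bool, p.1 ∈ T → c (E p) = code p.1) ∧
      G.edgeSet.ncard = 2 * T.card ∧ ClassesTwo G c := by
  classical
  let G : SimpleGraph (Fin n) := SimpleGraph.fromEdgeSet (E '' {p | p.1 ∈ T})
  let c : Sym2 (Fin n) → ℕ := fun e =>
    if h : ∃ p : κ × Bool, p.1 ∈ T ∧ E p = e then code h.choose.1 else 0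
  have hE : ∀ e, e ∈ G.edgeSet ↔ ∃ p : κ × Bool, p.1 ∈ T ∧ E p = e := by
    intro e
    simp only [G, SimpleGraph.edgeSet_fromEdgeSet]
    constructor
    · rintro ⟨⟨p, hp, rfl⟩, -⟩
      exact ⟨p, hp, rfl⟩
    · rintro ⟨p, hp, rfl⟩
      exact ⟨⟨p, hp, rfl⟩, fun h => hd p hp h⟩
  have hcol : ∀ p : κ × Bool, p.1 ∈ T → c (E p) = code p.1 := by
    intro p hp
    have h : ∃ q : κ × Bool, q.1 ∈ T ∧ E q = E p := ⟨p, hp, rfl⟩
    have h1 : c (E p) = code h.choose.1 := by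
      simp only [c]
      rw [dif_pos h]
    rw [h1]
    have h2 := h.choose_spec
    rw [hinj _ _ h2.1 hp h2.2]
  refine ⟨G, c, hE, hcol, ?_, ?_⟩
  · have h1 : G.edgeSet = ((T ×ˢ (Finset.univ : Finset Bool)).image E : Finset _) := by
      ext e
      rw [hE e]
      simp only [Finset.coe_image, Set.mem_image, Finset.mem_coe, Finset.mem_product,
        Finset.mem_univ, and_true]
    rw [h1, Set.ncard_coe_finset, Finset.card_image_of_injOn, Finset.card_product]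
    · simp [mul_comm]
    · intro p hp q hq h
      simp only [Finset.coe_product, Set.mem_prod, Finset.mem_coe] at hp hq
      exact hinj p q hp.1 hq.1 h
  · intro e he
    obtain ⟨p, hp, rfl⟩ := (hE e).1 he
    have h1 : {e' : Sym2 (Fin n) | e' ∈ G.edgeSet ∧ c e' = c (E p)} =
        {E (p.1, false), E (p.1, true)} := by
      ext e'
      simp only [Set.mem_ofPred_eq, Set.mem_insert_iff, Set.mem_singleton_iff]
      constructor
      · rintro ⟨h, h'⟩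
        obtain ⟨q, hq, rfl⟩ := (hE e').1 h
        rw [hcol q hq, hcol p hp] at h'
        have h2 := hc h'
        obtain ⟨q1, q2⟩ := q
        simp only at h2
        subst h2
        cases q2
        · left; rfl
        · right; rfl
      · rintro (rfl | rfl)
        · exact ⟨(hE _).2 ⟨(p.1, false), hp, rfl⟩, by rw [hcol (p.1, false) hp, hcol p hp]⟩
        · exact ⟨(hE _).2 ⟨(p.1, true), hp, rfl⟩, by rw [hcol (p.1, true) hp, hcol p hp]⟩
    rw [h1, Set.ncard_pair]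
    intro h
    have := hinj (p.1, false) (p.1, true) hp hp h
    simp at this

/-- the remaining edges -/
def rr (a s k : ℕ) : ℕ × ℕ := if k < s then (2 * k, 2 * k + 1) else (a - 1, a + (k - s))

/-- all edges in pairs -/
def EE (a s : ℕ) : (ℕ × ℕ) ⊕ ℕ → Bool → ℕ × ℕ
  | .inl (i, w), false => (2 * i, a + w)
  | .inl (i, w), true => (2 * i + 1, a + w)
  | .inr j, false => rr a s (2 * j)
  | .inr j, true => rr a s (2 * j + 1)

/-- the index set -/
def KK (s b m : ℕ) : Finset ((ℕ × ℕ) ⊕ ℕ) :=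
  (Finset.range s ×ˢ Finset.range b).disjSum (Finset.range m)

theorem mem_KK_inl {s b m i w : ℕ} : Sum.inl (i, w) ∈ KK s b m ↔ i < s ∧ w < b := by
  simp [KK]

theorem mem_KK_inr {s b m j : ℕ} : Sum.inr j ∈ KK s b m ↔ j < m := by
  simp [KK]

theorem card_KK {s b m : ℕ} : (KK s b m).card = s * b + m := by
  simp [KK]

theorem rr_spec {a b s R k u v : ℕ} (hs : 2 * s ≤ a)
    (hR : R = s ∨ (a = 2 * s + 1 ∧ R = s + b)) (hk : k < R) (h : rr a s k = (u, v)) :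
    (u = 2 * k ∧ v = 2 * k + 1 ∧ k < s) ∨
      (a = 2 * s + 1 ∧ u = 2 * s ∧ s ≤ k ∧ v = a + (k - s) ∧ k - s < b) := by
  unfold rr at h
  split_ifs at h with h1
  · left
    simp only [Prod.mk.injEq] at h
    omega
  · right
    simp only [Prod.mk.injEq] at h
    omega

/-- description of an edge -/
theorem EE_spec {a b s m R u v : ℕ} (hs : 2 * s ≤ a) (hR : R = s ∨ (a = 2 * s + 1 ∧ R = s + b))
    (hm : 2 * m ≤ R) {k : (ℕ × ℕ) ⊕ ℕ} (hk : k ∈ KK s b m) {x : Bool} (h : EE a s k x = (u, v)) :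
    (∃ i w, i < s ∧ w < b ∧ k = Sum.inl (i, w) ∧ v = a + w ∧
      ((x = false ∧ u = 2 * i) ∨ (x = true ∧ u = 2 * i + 1))) ∨
    (∃ j l, k = Sum.inr j ∧ j < m ∧ ((x = false ∧ l = 2 * j) ∨ (x = true ∧ l = 2 * j + 1)) ∧
      ((u = 2 * l ∧ v = 2 * l + 1 ∧ l < s) ∨
      (a = 2 * s + 1 ∧ u = 2 * s ∧ s ≤ l ∧ v = a + (l - s) ∧ l - s < b))) := by
  rcases k with ⟨i, w⟩ | j
  · left
    rw [mem_KK_inl] at hk
    refine ⟨i, w, hk.1, hk.2, rfl, ?_⟩
    cases x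
    · simp only [EE, Prod.mk.injEq] at h
      exact ⟨h.2.symm, Or.inl ⟨rfl, h.1.symm⟩⟩
    · simp only [EE, Prod.mk.injEq] at h
      exact ⟨h.2.symm, Or.inr ⟨rfl, h.1.symm⟩⟩
  · right
    rw [mem_KK_inr] at hk
    cases x
    · refine ⟨j, 2 * j, rfl, hk, Or.inl ⟨rfl, rfl⟩, ?_⟩
      simp only [EE] at h
      exact rr_spec hs hR (by omega) h
    · refine ⟨j, 2 * j + 1, rfl, hk, Or.inr ⟨rfl, rfl⟩, ?_⟩
      simp only [EE] at h
      exact rr_spec hs hR (by omega) h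

theorem EE_lt {a b s m R u v : ℕ} (hs : 2 * s ≤ a) (hR : R = s ∨ (a = 2 * s + 1 ∧ R = s + b))
    (hm : 2 * m ≤ R) {k : (ℕ × ℕ) ⊕ ℕ} (hk : k ∈ KK s b m) {x : Bool} (h : EE a s k x = (u, v)) :
    u < v ∧ v < a + b ∧ u < a := by
  rcases EE_spec hs hR hm hk h with ⟨i, w, hi, hw, -, hv, h1⟩ | ⟨j, l, -, hj, hl, h1⟩
  · omega
  · omega

theorem EE_shape {a b s m R u v : ℕ} (hs : 2 * s ≤ a) (hR : R = s ∨ (a = 2 * s + 1 ∧ R = s + b))
    (hm : 2 * m ≤ R) {k : (ℕ × ℕ) ⊕ ℕ} (hk : k ∈ KK s b m) {x : Bool} (h : EE a s k x = (u, v)) :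
    (u < a ∧ a ≤ v) ∨ (u / 2 = v / 2 ∧ u < v ∧ v < 2 * s) := by
  rcases EE_spec hs hR hm hk h with ⟨i, w, hi, hw, -, hv, h1⟩ | ⟨j, l, -, hj, hl, h1⟩
  · omega
  · omega

theorem EE_key {a b s m R u v : ℕ} (hs : 2 * s ≤ a) (hR : R = s ∨ (a = 2 * s + 1 ∧ R = s + b))
    (hm : 2 * m ≤ R) {k : (ℕ × ℕ) ⊕ ℕ} (hk : k ∈ KK s b m) {x : Bool} (h : EE a s k x = (u, v))
    (hu : u < 2 * s) (hv : a ≤ v) : k = Sum.inl (u / 2, v - a) := by
  rcases EE_spec hs hR hm hk h with ⟨i, w, hi, hw, hk', hv', h1⟩ | ⟨j, l, hk', hj, hl, h1⟩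
  · rw [hk']
    congr 1
    ext
    · show i = u / 2
      omega
    · show w = v - a
      omega
  · exfalso
    omega

theorem EE_inj {a b s m R : ℕ} (hs : 2 * s ≤ a) (hR : R = s ∨ (a = 2 * s + 1 ∧ R = s + b))
    (hm : 2 * m ≤ R) {k k' : (ℕ × ℕ) ⊕ ℕ} (hk : k ∈ KK s b m) (hk' : k' ∈ KK s b m) {x x' : Bool}
    (h : EE a s k x = EE a s k' x') : k = k' ∧ x = x' := by
  rcases hE : EE a s k x with ⟨u, v⟩
  rw [hE] at h
  have hE' := h.symm
  rcases EE_spec hs hR hm hk hE with ⟨i, w, hi, hw, h1, hv, h2⟩ | ⟨j, l, h1, hj, hl, h2⟩ <;>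
  rcases EE_spec hs hR hm hk' hE' with ⟨i', w', hi', hw', h1', hv', h2'⟩ | ⟨j', l', h1', hj', hl', h2'⟩
  · have e1 : i = i' := by omega
    have e2 : w = w' := by omega
    subst e1 e2
    refine ⟨by rw [h1, h1'], ?_⟩
    rcases h2 with ⟨rfl, h2⟩ | ⟨rfl, h2⟩ <;> rcases h2' with ⟨rfl, h2'⟩ | ⟨rfl, h2'⟩
    · rfl
    · omega
    · omega
    · rfl
  · exfalso; omega
  · exfalso; omega
  · have e0 : l = l' := by omega
    have e1 : j = j' := by omega
    subst e1 e0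
    refine ⟨by rw [h1, h1'], ?_⟩
    rcases hl with ⟨rfl, h2⟩ | ⟨rfl, h2⟩ <;> rcases hl' with ⟨rfl, h2'⟩ | ⟨rfl, h2'⟩
    · rfl
    · omega
    · omega
    · rfl

theorem count {n t : ℕ} (ht : 2 * t ≤ n ^ 2 / 4 + (n + 1) / 4) :
    ∃ a b s m R : ℕ, a + b = n ∧ 2 * s ≤ a ∧ (R = s ∨ (a = 2 * s + 1 ∧ R = s + b)) ∧ 2 * m ≤ R ∧
      t ≤ s * b + m := by
  have h4 : n % 4 < 4 := Nat.mod_lt _ (by norm_num)
  obtain ⟨q, r, hr, hn⟩ : ∃ q r, r < 4 ∧ n = 4 * q + r := ⟨n / 4, n % 4, h4, by omega⟩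
  interval_cases r
  · -- n = 4 q: a = 2q, b = 2q, s = q, R = q
    subst hn
    refine ⟨2 * q, 2 * q, q, q / 2, q, by omega, by omega, Or.inl rfl, by omega, ?_⟩
    have e1 : (4 * q + 0) ^ 2 = 4 * (4 * (q * q)) := by ring
    have e2 : q * (2 * q) = 2 * (q * q) := by ring
    rw [e1] at ht
    rw [e2]
    omega
  · -- n = 4 q + 1: a = 2q+1, b = 2q, s = q, R = q + 2q
    subst hn
    refine ⟨2 * q + 1, 2 * q, q, (3 * q) / 2, 3 * q, by omega, by omega, Or.inr ⟨rfl, by omega⟩,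
      by omega, ?_⟩
    have e1 : (4 * q + 1) ^ 2 = 4 * (4 * (q * q) + 2 * q) + 1 := by ring
    have e2 : q * (2 * q) = 2 * (q * q) := by ring
    rw [e1] at ht
    rw [e2]
    omega
  · -- n = 4 q + 2: a = 2q+1, b = 2q+1, s = q, R = q + 2q + 1
    subst hn
    refine ⟨2 * q + 1, 2 * q + 1, q, (3 * q + 1) / 2, 3 * q + 1, by omega, by omega,
      Or.inr ⟨rfl, by omega⟩, by omega, ?_⟩
    have e1 : (4 * q + 2) ^ 2 = 4 * (4 * (q * q) + 4 * q + 1) := by ring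
    have e2 : q * (2 * q + 1) = 2 * (q * q) + q := by ring
    rw [e1] at ht
    rw [e2]
    omega
  · -- n = 4 q + 3: a = 2q+2, b = 2q+1, s = q + 1, R = q + 1
    subst hn
    refine ⟨2 * q + 2, 2 * q + 1, q + 1, (q + 1) / 2, q + 1, by omega, by omega,
      Or.inl rfl, by omega, ?_⟩
    have e1 : (4 * q + 3) ^ 2 = 4 * (4 * (q * q) + 6 * q + 2) + 1 := by ring
    have e2 : (q + 1) * (2 * q + 1) = 2 * (q * q) + 3 * q + 1 := by ring
    rw [e1] at ht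
    rw [e2]
    omega

/-- **S_CONS** -/
theorem t_CONS : S_CONS := by
  intro n t ht
  obtain ⟨a, b, s, m, R, hab, hs, hR, hm, hcnt⟩ := count ht
  rcases Nat.eq_zero_or_pos n with rfl | hn
  · have h0 : t = 0 := by
      norm_num at ht
      omega
    subst h0
    refine ⟨⊥, fun _ => 0, by simp, ?_, ?_⟩
    · intro e he
      simp at he
    · intro x
      exact x.elim0
  have : NeZero n := ⟨hn.ne'⟩
  obtain ⟨T, hTK, hTt⟩ := Finset.exists_subset_card_eq (s := KK s b m) (n := t)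
    (by rw [card_KK]; exact hcnt)
  set E : ((ℕ × ℕ) ⊕ ℕ) × Bool → Sym2 (Fin n) := fun p =>
    s(Fin.ofNat n (EE a s p.1 p.2).1, Fin.ofNat n (EE a s p.1 p.2).2) with hE
  -- the value of an edge
  have hval : ∀ p : ((ℕ × ℕ) ⊕ ℕ) × Bool, p.1 ∈ T → ∀ x y : Fin n, E p = s(x, y) →
      EE a s p.1 p.2 = ((x : ℕ), (y : ℕ)) ∨ EE a s p.1 p.2 = ((y : ℕ), (x : ℕ)) := by
    intro p hp x y h
    rcases huv : EE a s p.1 p.2 with ⟨u, v⟩
    obtain ⟨h1, h2, h3⟩ := EE_lt hs hR hm (hTK hp) huv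
    simp only [hE, huv] at h
    have hu : ((Fin.ofNat n u : Fin n) : ℕ) = u := by
      simp only [Fin.val_ofNat]
      exact Nat.mod_eq_of_lt (by omega)
    have hv : ((Fin.ofNat n v : Fin n) : ℕ) = v := by
      simp only [Fin.val_ofNat]
      exact Nat.mod_eq_of_lt (by omega)
    rw [Sym2.eq_iff] at h
    rcases h with ⟨rfl, rfl⟩ | ⟨rfl, rfl⟩
    · left; rw [hu, hv]
    · right; rw [hu, hv]
  have hself : ∀ p : ((ℕ × ℕ) ⊕ ℕ) × Bool, p.1 ∈ T → ∀ u v, EE a s p.1 p.2 = (u, v) →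
      u < n ∧ v < n ∧ E p = s(Fin.ofNat n u, Fin.ofNat n v) := by
    intro p hp u v huv
    obtain ⟨h1, h2, h3⟩ := EE_lt hs hR hm (hTK hp) huv
    refine ⟨by omega, by omega, ?_⟩
    simp only [hE, huv]
  have hinj : ∀ p q : ((ℕ × ℕ) ⊕ ℕ) × Bool, p.1 ∈ T → q.1 ∈ T → E p = E q → p = q := by
    intro p q hp hq h
    rcases huv : EE a s q.1 q.2 with ⟨u, v⟩
    obtain ⟨hu, hv, he⟩ := hself q hq u v huv
    rw [he] at h
    obtain ⟨h1, h2, h3⟩ := EE_lt hs hR hm (hTK hq) huv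
    have hu' : ((Fin.ofNat n u : Fin n) : ℕ) = u := by
      simp only [Fin.val_ofNat]
      exact Nat.mod_eq_of_lt (by omega)
    have hv' : ((Fin.ofNat n v : Fin n) : ℕ) = v := by
      simp only [Fin.val_ofNat]
      exact Nat.mod_eq_of_lt (by omega)
    rcases hval p hp _ _ h with h' | h'
    · rw [hu', hv', ← huv] at h'
      obtain ⟨e1, e2⟩ := EE_inj hs hR hm (hTK hp) (hTK hq) h'
      exact Prod.ext e1 e2
    · exfalso
      have := EE_lt hs hR hm (hTK hp) h'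
      omega
  have hdiag : ∀ p : ((ℕ × ℕ) ⊕ ℕ) × Bool, p.1 ∈ T → ¬ (E p).IsDiag := by
    intro p hp hd
    rcases huv : EE a s p.1 p.2 with ⟨u, v⟩
    obtain ⟨hu, hv, he⟩ := hself p hp u v huv
    rw [he, Sym2.mk_isDiag_iff] at hd
    obtain ⟨h1, h2, h3⟩ := EE_lt hs hR hm (hTK hp) huv
    have := congrArg (fun z : Fin n => (z : ℕ)) hd
    simp only [Fin.val_ofNat] at this
    rw [Nat.mod_eq_of_lt hu, Nat.mod_eq_of_lt hv] at this
    omega
  obtain ⟨G, c, hG, hc, hcard, hcl⟩ := abs' (fun k : (ℕ × ℕ) ⊕ ℕ => Encodable.encode k)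
    Encodable.encode_injective T E hinj hdiag
  refine ⟨G, c, by rw [hcard, hTt], hcl, ?_⟩
  -- shape of an edge
  have hsh : ∀ x y : Fin n, G.Adj x y → ((x : ℕ) < a ∧ a ≤ (y : ℕ)) ∨
      ((y : ℕ) < a ∧ a ≤ (x : ℕ)) ∨
      ((x : ℕ) / 2 = (y : ℕ) / 2 ∧ (x : ℕ) ≠ y ∧ (x : ℕ) < 2 * s ∧ (y : ℕ) < 2 * s) := by
    intro x y hxy
    obtain ⟨p, hp, hpe⟩ := (hG s(x, y)).1 (by simpa using hxy)
    rcases hval p hp x y hpe with h | h
    · have := EE_shape hs hR hm (hTK hp) h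
      omega
    · have := EE_shape hs hR hm (hTK hp) h
      omega
  have hcol : ∀ x y : Fin n, G.Adj x y → (x : ℕ) < 2 * s → a ≤ (y : ℕ) →
      c s(x, y) = Encodable.encode (Sum.inl ((x : ℕ) / 2, (y : ℕ) - a) : (ℕ × ℕ) ⊕ ℕ) := by
    intro x y hxy hx hy
    obtain ⟨p, hp, hpe⟩ := (hG s(x, y)).1 (by simpa using hxy)
    rw [← hpe, hc p hp]
    rcases hval p hp x y hpe with h | h
    · rw [EE_key hs hR hm (hTK hp) h hx hy]
    · exfalso
      have := EE_lt hs hR hm (hTK hp) h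
      omega
  -- two vertices of `A` and one of `B`
  have htri : ∀ x y z : Fin n, G.Adj x y → G.Adj y z → G.Adj z x → a ≤ (z : ℕ) →
      c s(y, z) = c s(z, x) := by
    intro x y z hxy hyz hzx hz
    have e1 := hsh x y hxy
    have e2 := hsh y z hyz
    have e3 := hsh z x hzx
    have hx : (x : ℕ) < 2 * s := by omega
    have hy : (y : ℕ) < 2 * s := by omega
    have hxy2 : (x : ℕ) / 2 = (y : ℕ) / 2 := by omega
    rw [hcol y z hyz hy hz, Sym2.eq_swap (a := z) (b := x), hcol x z hzx.symm hx hz, hxy2]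
  intro x y z hxy hyz hzx
  have e1 := hsh x y hxy
  have e2 := hsh y z hyz
  have e3 := hsh z x hzx
  have h3 : a ≤ (x : ℕ) ∨ a ≤ (y : ℕ) ∨ a ≤ (z : ℕ) := by omega
  rcases h3 with h | h | h
  · right; right
    exact htri y z x hyz hzx hxy h
  · left
    exact htri z x y hzx hxy hyz h
  · right; left
    exact htri x y z hxy hyz hzx h

end Pool.Agent.E8helper73.RG
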